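import Mathlib
import Pool.Agent.W484.AH.Hom

/-!
# Fullness of the Hodge realization on products with abelian varieties with complex multiplication

`X` and `Y` are arbitrary smooth projective varieties, `H b` and `H' b` are the rational cohomology
groups of `X` and of `Y`, `(D b).part p` and `(D' b).part p` the subspaces of type `(p, *)` of the
complexifications.

`A i` (`i` in a finite or infinite index set) are abelian varieties with complex multiplication by
the CM fields `K i`; the first cohomology group of `A i` is identified with `K i`, and `Φ` is the
union of the CM types. We suppose that the Galois group of the compositum of the fields contains all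
the sign changes (`SignChanges`): this holds for instance if the fields are independent and the Galois
groups of their Galois closures are as large as possible.

The theorem: there is a set `S` of at most `(∑ b, dim H b) (∑ b, dim H' b)` indices such that for all
products `A` and `B` of powers of abelian varieties `A i`, `i` not in `S`, all morphisms of Hodge
structures from the cohomology of `X × A` to a Tate twist of the cohomology of `Y × B` are
linear combinations of products of divisor classes on `A × B` and morphisms of Hodge structures from
the cohomology of `X` to Tate twists of the cohomology of `Y`.

Here we use that the cohomology of `A` and `B` is the direct sum of tensor products of cohomology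
groups `V i = H¹ (A i)` (exterior powers are direct summands of tensor powers), and that `V i` is
isomorphic to a Tate twist of its dual by a polarization; so all the factors `V i` can be brought to
the left side. A morphism of Hodge structures from `V (j 1) ⊗ ⋯ ⊗ V (j a) ⊗ H b` to a twist of
`H' b'` is a multilinear map `f` from `K (j 1) × ⋯ × K (j a)` to `Hom (H b, H' b')` with
`IsTensorMorphism`.

Classes of divisors are absolute Hodge. So if the realization functor of motives for absolute Hodge
cycles is full on `Hom (h(X), h(Y)(m))` for all `m` (take for `good` the realizations of morphisms
of motives), then it is full on `Hom (h(X × A), h(Y × B)(m))` for all `m`, `A` and `B`. The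
hypothesis holds for all `X` and `Y` with `dim X + dim Y ≤ 3`: then all the Hodge classes on `X × Y`
are algebraic.
-/

set_option autoImplicit false

open Module

namespace Pool.Agent.Results.MP_0da4e0_ag.AlmostAllCMFactors

open Pool.Agent.W484.AH

theorem result {ι : Type} {K : ι → Type} [∀ i, Field (K i)] [∀ i, NumberField (K i)]
    [∀ i, NumberField.IsCMField (K i)] {Φ : Set (Emb K)} (hΦ : IsCMType Φ) (hS : SignChanges K)
    {β β' : Type} [Fintype β] [Fintype β']
    (H : β → Type) [∀ b, AddCommGroup (H b)] [∀ b, Module ℚ (H b)] [∀ b, Module.Finite ℚ (H b)]
    (H' : β' → Type) [∀ b, AddCommGroup (H' b)] [∀ b, Module ℚ (H' b)]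
    [∀ b, Module.Finite ℚ (H' b)]
    (D : ∀ b, HodgeData (H b)) (D' : ∀ b, HodgeData (H' b)) (hD : ∀ b, (D b).Exhausts) :
    ∃ S : Finset ι, S.card ≤ (∑ b, finrank ℚ (H b)) * ∑ b, finrank ℚ (H' b) ∧
      ∀ b b', MorphismsAreProducts Φ (D b) (D' b') S :=
  mainHom hΦ hS H H' D D' hD

end Pool.Agent.Results.MP_0da4e0_ag.AlmostAllCMFactors
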